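import Pool.Agent.H8.JS.Targets

/-!
# Row NU of the board js8_modules: the numbers of words
-/

set_option autoImplicit false

namespace Pool.Agent.H33.JS

open Pool.Agent.H69.Sp Pool.Agent.H69.Mt Pool.Agent.H16.TO Pool.Agent.H8.PL Pool.Agent.H8.JS

theorem num_append (x : List Bool) (b : Bool) : num (x ++ [b]) = 2 * num x + b.toNat := by
  unfold num
  rw [List.foldl_append]
  rfl

theorem num_bd (x : List Bool) : 2 ^ x.length ≤ num x ∧ num x < 2 ^ (x.length + 1) := by
  induction x using List.reverseRecOn with
  | nil => exact ⟨le_rfl, by decide⟩
  | append_singleton x b ih =>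
    rw [num_append, List.length_append, List.length_singleton]
    have h1 : b.toNat ≤ 1 := Bool.toNat_le b
    have h2 : 2 ^ (x.length + 1) = 2 * 2 ^ x.length := by ring
    have h3 : 2 ^ (x.length + 1 + 1) = 2 * 2 ^ (x.length + 1) := by ring
    rw [h3]
    constructor
    · omega
    · omega

theorem num_inj (x : List Bool) : ∀ y, num x = num y → x = y := by
  induction x using List.reverseRecOn with
  | nil =>
    intro y h
    have h1 := (num_bd y).1
    rcases List.eq_nil_or_concat y with rfl | ⟨y', b, rfl⟩
    · rfl
    · rw [List.concat_eq_append, List.length_append, List.length_singleton] at h1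
      rw [List.concat_eq_append] at h
      have h2 : num [] = 1 := rfl
      have h3 : 2 ^ (y'.length + 1) = 2 * 2 ^ y'.length := by ring
      have h4 : 1 ≤ 2 ^ y'.length := Nat.one_le_two_pow
      omega
  | append_singleton x b ih =>
    intro y h
    rcases List.eq_nil_or_concat y with rfl | ⟨y', b', rfl⟩
    · have h1 := (num_bd (x ++ [b])).1
      rw [List.length_append, List.length_singleton] at h1
      have h2 : num [] = 1 := rfl
      have h3 : 2 ^ (x.length + 1) = 2 * 2 ^ x.length := by ring
      have h4 : 1 ≤ 2 ^ x.length := Nat.one_le_two_pow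
      omega
    · rw [List.concat_eq_append] at h ⊢
      rw [num_append, num_append] at h
      have h1 : b.toNat ≤ 1 := Bool.toNat_le b
      have h2 : b'.toNat ≤ 1 := Bool.toNat_le b'
      have h3 : num x = num y' := by omega
      have h4 : b.toNat = b'.toNat := by omega
      have h5 : b = b' := by
        revert h4
        cases b <;> cases b' <;> simp
      rw [ih y' h3, h5]

theorem num_surj (m : ℕ) : 0 < m → ∃ x, num x = m := by
  induction m using Nat.strong_induction_on with
  | _ m ih =>
    intro hm
    rcases Nat.lt_or_ge 1 m with h | h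
    · obtain ⟨x, hx⟩ := ih (m / 2) (by omega) (by omega)
      refine ⟨x ++ [decide (m % 2 = 1)], ?_⟩
      rw [num_append, hx]
      rcases Nat.mod_two_eq_zero_or_one m with h1 | h1
      · rw [h1]
        simp
        omega
      · rw [h1]
        simp
        omega
    · refine ⟨[], ?_⟩
      have h2 : num [] = 1 := rfl
      omega

theorem pf_nu : J_NU := ⟨rfl, num_append, num_bd, num_inj, num_surj⟩

end Pool.Agent.H33.JS
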